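import Mathlib

set_option autoImplicit false

open scoped Pointwise

namespace Pool.Agent.Results.MP_250e3d_co.TwinFreeCounterexamples

/-- `S* = (S \ {2h}) + 2h` in `ℤ_{4h}`. -/
def star (h : ℕ) (S : Set (ZMod (4 * h))) : Set (ZMod (4 * h)) :=
  (S \ {((2 * h : ℕ) : ZMod (4 * h))}) + {((2 * h : ℕ) : ZMod (4 * h))}

/-- `σ` is an automorphism of the graph `Cay(ℤ_n, T)`: `x ∼ y` iff `y - x ∈ T`. -/
def IsAut {n : ℕ} (T : Set (ZMod n)) (σ : Equiv.Perm (ZMod n)) : Prop :=
  ∀ x y, σ y - σ x ∈ T ↔ y - x ∈ T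

/-- `K_o = K \ 2K`. -/
def Ko {n : ℕ} (K : AddSubgroup (ZMod n)) : Set (ZMod n) := {x | x ∈ K ∧ ¬ ∃ k ∈ K, x = 2 * k}

/-- For every odd `h ≥ 3` there is an inverse-closed `S ⊆ ℤ_{4h}` with `0 ∉ S`, such that
`Cay(ℤ_{4h}, S)` is connected, not bipartite (`1, 2 ∈ S`) and twin-free (no translation `t ≠ 0`
preserves `S`), such that `Cay(ℤ_{4h}, S*)` has an automorphism which fixes `0` and moves `2h`, but
the inclusion `(S \ K_o) + ⟨h⟩ ⊆ S ∪ K_o` fails for every subgroup `K` of order twice an odd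
number. -/
theorem result (h : ℕ) (ho : Odd h) (h3 : 3 ≤ h) :
    ∃ S : Set (ZMod (4 * h)), (∀ x ∈ S, -x ∈ S) ∧ 0 ∉ S ∧ (1 ∈ S ∧ 2 ∈ S) ∧
      (∀ t, (∀ x, x ∈ S ↔ x + t ∈ S) → t = 0) ∧
      (∃ σ : Equiv.Perm (ZMod (4 * h)), IsAut (star h S) σ ∧ σ 0 = 0 ∧
        σ ((2 * h : ℕ) : ZMod (4 * h)) ≠ ((2 * h : ℕ) : ZMod (4 * h))) ∧
      ∀ K : AddSubgroup (ZMod (4 * h)), (∃ q : ℕ, Odd q ∧ Nat.card K = 2 * q) →
        ¬ ((S \ Ko K) + (AddSubgroup.zmultiples ((h : ℕ) : ZMod (4 * h)) : Set (ZMod (4 * h))) ⊆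
          S ∪ Ko K) := by
  have : NeZero (4 * h) := ⟨by omega⟩
  obtain ⟨m, hm⟩ := ho
  let r : ZMod (4 * h) →+* ZMod 4 := ZMod.castHom (dvd_mul_right 4 h) (ZMod 4)
  set w : ZMod (4 * h) := ((2 * h : ℕ) : ZMod (4 * h)) with hw
  have hww : w + w = 0 := by
    have e : w + w = ((4 * h : ℕ) : ZMod (4 * h)) := by
      rw [hw]; push_cast; ring
    rw [e, ZMod.natCast_self]
  have hrw : r w = 2 := by
    rw [hw, map_natCast, hm]
    have : ((2 * (2 * m + 1) : ℕ) : ZMod 4) = ((4 * m + 2 : ℕ) : ZMod 4) := by congr 1; ring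
    rw [this]
    have h4 : ((4 : ℕ) : ZMod 4) = 0 := ZMod.natCast_self 4
    rw [Nat.cast_add, Nat.cast_mul, h4, zero_mul, zero_add]
    rfl
  have hr2 : r 2 = 2 := map_ofNat r 2
  have hr1 : r 1 = 1 := map_one r
  have hne2w : (2 : ZMod (4 * h)) ≠ w := by
    intro e
    have e1 : ((2 : ℕ) : ZMod (4 * h)) = ((2 * h : ℕ) : ZMod (4 * h)) := by
      rw [← hw, ← e]; norm_num
    rw [ZMod.natCast_eq_natCast_iff'] at e1
    rw [Nat.mod_eq_of_lt (by omega), Nat.mod_eq_of_lt (by omega)] at e1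
    omega
  have d4 : ∀ a : ZMod 4, a = 0 ∨ a = 1 ∨ a = 2 ∨ a = 3 := by decide
  refine ⟨{x | r x = 1 ∨ r x = 3 ∨ (r x = 2 ∧ x ≠ w)}, ?_, ?_, ⟨?_, ?_⟩, ?_, ?_, ?_⟩
  · rintro x (hx | hx | ⟨hx, hx'⟩)
    · right; left
      rw [map_neg, hx]; rfl
    · left
      rw [map_neg, hx]; rfl
    · right; right
      refine ⟨by rw [map_neg, hx]; rfl, fun e => hx' ?_⟩
      have : x = -w := by rw [← e, neg_neg]
      rw [this]
      exact neg_eq_of_add_eq_zero_left hww
  · show ¬ (r 0 = 1 ∨ r 0 = 3 ∨ (r 0 = 2 ∧ (0 : ZMod (4 * h)) ≠ w))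
    rw [map_zero]
    rintro (hx | hx | ⟨hx, -⟩) <;> exact absurd hx (by decide)
  · left; exact hr1
  · right; right; exact ⟨hr2, hne2w⟩
  · intro t ht
    have hneg : ∀ x, r x = 0 → x ∉ {x | r x = 1 ∨ r x = 3 ∨ (r x = 2 ∧ x ≠ w)} := by
      rintro x hx (h1 | h1 | ⟨h1, -⟩) <;> rw [hx] at h1 <;> exact absurd h1 (by decide)
    have hwn : w ∉ {x | r x = 1 ∨ r x = 3 ∨ (r x = 2 ∧ x ≠ w)} := by
      rintro (h1 | h1 | ⟨-, h1⟩)
      · rw [hrw] at h1; exact absurd h1 (by decide)
      · rw [hrw] at h1; exact absurd h1 (by decide)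
      · exact h1 rfl
    by_contra htne
    rcases d4 (r t) with h0 | h1 | h2 | h3'
    · -- x = w - t
      have hx := ht (w - t)
      rw [sub_add_cancel] at hx
      refine hwn (hx.1 ?_)
      right; right
      refine ⟨by rw [map_sub, hrw, h0]; rfl, fun e => htne ?_⟩
      exact sub_eq_self.1 e
    · have hx := ht (-t)
      rw [neg_add_cancel] at hx
      refine hneg 0 (map_zero r) (hx.1 ?_)
      right; left
      rw [map_neg, h1]; rfl
    · -- r t = 2: if t ≠ w then use x = -t, else x = 2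
      by_cases htw : t = w
      · have hx := ht 2
        refine hneg (2 + t) ?_ (hx.1 ?_)
        · rw [map_add, hr2, h2]; rfl
        · right; right; exact ⟨hr2, hne2w⟩
      · have hx := ht (-t)
        rw [neg_add_cancel] at hx
        refine hneg 0 (map_zero r) (hx.1 ?_)
        right; right
        refine ⟨by rw [map_neg, h2]; rfl, fun e => htw ?_⟩
        have : t = -w := by rw [← e, neg_neg]
        rw [this]
        exact neg_eq_of_add_eq_zero_left hww
    · have hx := ht (-t)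
      rw [neg_add_cancel] at hx
      refine hneg 0 (map_zero r) (hx.1 ?_)
      left
      rw [map_neg, h3']; rfl
  · have hstar : ∀ x, x ∈ star h {x | r x = 1 ∨ r x = 3 ∨ (r x = 2 ∧ x ≠ w)} ↔
        (r x = 1 ∨ r x = 3 ∨ (r x = 0 ∧ x ≠ 0)) := by
      intro x
      rw [star, Set.add_singleton, Set.mem_image]
      constructor
      · rintro ⟨y, ⟨(hy | hy | ⟨hy, hy'⟩), hyw⟩, rfl⟩
        · right; left
          show r (y + w) = 3
          rw [map_add, hy, hrw]; rfl
        · left
          show r (y + w) = 1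
          rw [map_add, hy, hrw]; rfl
        · right; right
          refine ⟨?_, fun e => hy' ?_⟩
          · show r (y + w) = 0
            rw [map_add, hy, hrw]; rfl
          · have e' : y + w = 0 := e
            have : y = -w := eq_neg_of_add_eq_zero_left e'
            rw [this]
            exact neg_eq_of_add_eq_zero_left hww
      · intro hx
        refine ⟨x + w, ⟨?_, ?_⟩, ?_⟩
        · rcases hx with hx | hx | ⟨hx, hx'⟩
          · right; left
            rw [map_add, hx, hrw]; rfl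
          · left
            rw [map_add, hx, hrw]; rfl
          · right; right
            refine ⟨by rw [map_add, hx, hrw]; rfl, fun e => hx' ?_⟩
            exact add_eq_right.1 e
        · intro e
          have e' : x + w = w := e
          have hx0 : x = 0 := add_eq_right.1 e'
          rcases hx with hx | hx | ⟨hx, hx'⟩
          · rw [hx0, map_zero] at hx; exact absurd hx (by decide)
          · rw [hx0, map_zero] at hx; exact absurd hx (by decide)
          · exact hx' hx0
        · show x + w + w = x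
          rw [add_assoc, hww, add_zero]
    refine ⟨Equiv.swap 2 w, ?_, ?_, ?_⟩
    · have hrσ : ∀ x, r (Equiv.swap 2 w x) = r x := by
        intro x
        rcases eq_or_ne x 2 with rfl | h1
        · rw [Equiv.swap_apply_left, hrw, hr2]
        rcases eq_or_ne x w with rfl | h2
        · rw [Equiv.swap_apply_right, hrw, hr2]
        · rw [Equiv.swap_apply_of_ne_of_ne h1 h2]
      intro x y
      rw [hstar, hstar]
      have e1 : r (Equiv.swap 2 w y - Equiv.swap 2 w x) = r (y - x) := by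
        rw [map_sub, map_sub, hrσ, hrσ]
      have e2 : (Equiv.swap 2 w y - Equiv.swap 2 w x ≠ 0) ↔ (y - x ≠ 0) := by
        rw [sub_ne_zero, sub_ne_zero]
        exact (Equiv.swap 2 w).injective.ne_iff
      rw [e1, e2]
    · rw [Equiv.swap_apply_of_ne_of_ne]
      · intro e
        have := congrArg r e
        rw [map_zero, hr2] at this
        exact absurd this (by decide)
      · intro e
        have := congrArg r e
        rw [map_zero, hrw] at this
        exact absurd this (by decide)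
    · rw [Equiv.swap_apply_right]
      exact hne2w
  · rintro K ⟨q, ⟨l, hl⟩, hq⟩ hsub
    have hrh : r ((h : ℕ) : ZMod (4 * h)) = 1 ∨ r ((h : ℕ) : ZMod (4 * h)) = 3 := by
      rcases d4 (r ((h : ℕ) : ZMod (4 * h))) with h0 | h1 | h2 | h3'
      · exfalso
        have : r w = 0 := by
          rw [hw, Nat.cast_mul, map_mul, h0, mul_zero]
        rw [hrw] at this
        exact absurd this (by decide)
      · exact Or.inl h1
      · exfalso
        have : r w = 0 := by
          rw [hw, Nat.cast_mul, map_mul, h2]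
          rw [map_natCast]; rfl
        rw [hrw] at this
        exact absurd this (by decide)
      · exact Or.inr h3'
    have hS : -((h : ℕ) : ZMod (4 * h)) ∈ {x | r x = 1 ∨ r x = 3 ∨ (r x = 2 ∧ x ≠ w)} := by
      rcases hrh with h1 | h1
      · right; left
        rw [map_neg, h1]; rfl
      · left
        rw [map_neg, h1]; rfl
    have hK : -((h : ℕ) : ZMod (4 * h)) ∉ Ko K := by
      rintro ⟨h1, -⟩
      have h2 : ((h : ℕ) : ZMod (4 * h)) ∈ K := by
        have := K.neg_mem h1
        rwa [neg_neg] at this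
      have h4 : addOrderOf ((h : ℕ) : ZMod (4 * h)) = 4 := by
        rw [ZMod.addOrderOf_coe h (by omega)]
        rw [Nat.gcd_mul_left_left 4 h]
        exact Nat.mul_div_cancel _ (by omega)
      have h5 : addOrderOf ((h : ℕ) : ZMod (4 * h)) ∣ Nat.card K := by
        have := addOrderOf_dvd_natCard (⟨_, h2⟩ : K)
        rwa [AddSubgroup.addOrderOf_mk] at this
      rw [h4, hq] at h5
      omega
    have h0 : (0 : ZMod (4 * h)) ∈ {x | r x = 1 ∨ r x = 3 ∨ (r x = 2 ∧ x ≠ w)} ∪ Ko K := by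
      refine hsub ?_
      rw [Set.mem_add]
      exact ⟨_, ⟨hS, hK⟩, _, AddSubgroup.mem_zmultiples _, neg_add_cancel _⟩
    rcases h0 with (h1 | h1 | ⟨h1, -⟩) | ⟨-, h1⟩
    · rw [map_zero] at h1; exact absurd h1 (by decide)
    · rw [map_zero] at h1; exact absurd h1 (by decide)
    · rw [map_zero] at h1; exact absurd h1 (by decide)
    · exact h1 ⟨0, K.zero_mem, by simp⟩

end Pool.Agent.Results.MP_250e3d_co.TwinFreeCounterexamples
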